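import Pool.Agent.Helper158.FG.Grp
import Pool.Agent.Helper158.FG.Def
import Pool.Agent.Helper158.FG.Top2

set_option autoImplicit false

/-!
# A group with the 4-manifold geography of the trivial group

`G = ⟨a, b | b³, b⁻¹ a b a⁻²⟩` is the nonabelian group of order 21. It has deficiency `0`, the
rational homology of a point, `H₄(G; ℤ) = 0`, it is not a free product with a free group and it is
not the fundamental group of a Poincaré 3-complex (its cohomology has period 6, not 4).
-/

namespace Pool.Agent.Results.MP_9533c6_gt.OrderTwentyOne

open CategoryTheory Limits Pool.Agent.Helper158.FG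

/-- **Theorem.** The group `G = ⟨a, b | b³ = 1, b⁻¹ a b = a²⟩` has order `21` and

(i) is not the fundamental group of a Poincaré complex of formal dimension 3: no free action of `G`
on a simply connected space `Y` satisfies the consequences `Duality3` of Poincaré duality for
`Y / G`, nor the consequences `Fundamental3` of Poincaré duality with coefficients `ℤ[G]` only;

(ii) is not a free product with a nontrivial free group;

(iii) `H₄(G; ℤ) = 0`;

(iv) its deficiency is `0` (the greatest value of generators minus relations over all finite
presentations, attained) and `H_n(G; ℚ) = 0` for all `n ≥ 1`, so that the two sides of the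
inequality `|σ| + 2 - 2 β₁(G) + 2 β₂(G) ≤ q_G(σ) ≤ |σ| + 2 - 2 def(G)` agree. -/
theorem result :
    Nat.card G = 21 ∧
    (∀ (Y : Type) [TopologicalSpace Y] [SimplyConnectedSpace Y] [MulAction G Y]
      [ContinuousConstSMul G Y], (∀ (g : G) (y : Y), g • y = y → g = 1) →
      ¬ Duality3 G Y ∧ ¬ Fundamental3 G Y) ∧
    (∀ (F H : Type) [Group F] [Group H] [IsFreeGroup F] [Nontrivial F],
      IsEmpty (G ≃* Monoid.Coprod F H)) ∧
    IsZero (groupHomology (Rep.trivial ℤ G ℤ) 4) ∧
    IsGreatest (deficiencies G) 0 ∧
    ∀ n : ℕ, IsZero (groupHomology (Rep.trivial ℚ G ℚ) (n + 1)) := by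
  have hfin : Finite G := Nat.finite_of_card_ne_zero (by rw [card_G]; decide)
  refine ⟨card_G, ?_, fun F H => not_free_product F H, H4, deficiency_G, rational⟩
  intro Y _ _ _ _ free
  exact ⟨main free a b a_pow a_ne rel_b b_mul_a simply_connected,
    main2 free a b a_pow a_ne rel_b b_mul_a bij_G simply_connected⟩

end Pool.Agent.Results.MP_9533c6_gt.OrderTwentyOne
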